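import Mathlib
import Pool.Agent.H.MP_fc4263_co.B

set_option autoImplicit false

theorem Pool.Agent.Results.MP_fc4263_co.Cex.result :
    ∃ (V : Type) (G : SimpleGraph V), Infinite V ∧ G.Connected ∧
      (∀ v, (G.neighborSet v).Finite) ∧
      (∃ C : ℝ, 0 < C ∧ ∀ (u v : V) (r : ℝ), 0 < r →
        ({w | (G.dist v w : ℝ) ≤ r}.ncard : ℝ) ≤ C * {w | (G.dist u w : ℝ) ≤ r}.ncard) ∧
      (∃ a K : ℝ, 1 < a ∧ 0 < K ∧ ∀ (v : V) (r : ℝ), 0 < r →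
        K * a ^ r < {w | (G.dist v w : ℝ) ≤ r}.ncard) ∧
      ∀ H : G.Subgraph, H.verts.Infinite → ∀ ε : ℝ, 0 < ε →
        ∃ S : Finset V, S.Nonempty ∧ (S : Set V) ⊆ H.verts ∧
          ({e ∈ H.edgeSet | ∃ u w, e = s(u, w) ∧ u ∈ S ∧ w ∉ S}.ncard : ℝ) < ε * S.card := by
  obtain ⟨V, G, h1, h2, h3⟩ := Pool.Agent.H.MP_fc4263_co.main
  have e : ∀ v (r : ℝ), 0 < r → {w | (G.dist v w : ℝ) ≤ r} = {w | G.dist v w ≤ ⌊r⌋₊} :=
    fun v r h => Set.ext fun w => (Nat.le_floor_iff h.le).symm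
  refine ⟨V, G, ?_, h1, fun v => (h2 v 1).1.subset fun w h =>
    (SimpleGraph.dist_eq_one_iff_adj.2 h).le, ⟨144, by norm_num, fun u v r h => ?_⟩,
    ⟨2, 1 / 2, by norm_num, by norm_num, fun v r h => ?_⟩, fun H hH ε hε => ?_⟩
  · by_contra h
    rw [not_infinite_iff_finite] at h
    obtain ⟨v⟩ := h1.nonempty
    have a := (h2 v (Nat.card V)).2.1.trans (Set.ncard_le_card _)
    exact absurd Nat.lt_two_pow_self (not_lt.2 a)
  · rw [e _ _ h, e _ _ h]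
    have a := (h2 v ⌊r⌋₊).2.2
    have b := (h2 u ⌊r⌋₊).2.1
    exact_mod_cast a.trans (Nat.mul_le_mul_left _ b)
  · rw [e _ _ h]
    have b : ((2 : ℝ) ^ ⌊r⌋₊) ≤ {w | G.dist v w ≤ ⌊r⌋₊}.ncard := by
      exact_mod_cast (h2 v ⌊r⌋₊).2.1
    have c : (2 : ℝ) ^ r < 2 ^ ((⌊r⌋₊ : ℝ) + 1) :=
      Real.rpow_lt_rpow_of_exponent_lt (by norm_num) (Nat.lt_floor_add_one r)
    rw [Real.rpow_add (by norm_num), Real.rpow_natCast, Real.rpow_one] at c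
    linarith
  · obtain ⟨v, hv⟩ := hH.nonempty
    obtain ⟨n, hn⟩ := exists_nat_gt (1 / ε)
    obtain ⟨J, a, S, b, c, d⟩ := h3 H v hv n
    refine ⟨S, b, c, ?_⟩
    generalize Set.ncard _ = m at d
    have d' : (m : ℝ) * J ≤ S.card := by exact_mod_cast d
    have a' : (n : ℝ) ≤ J := by exact_mod_cast a
    have b' : (0 : ℝ) < S.card := by exact_mod_cast b.card_pos
    have f : 1 < ε * J := by rw [div_lt_iff₀ hε] at hn; nlinarith
    by_contra g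
    nlinarith [mul_le_mul_of_nonneg_right (not_lt.1 g) (Nat.cast_nonneg (α := ℝ) J)]
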